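import Pool.Agent.Y892.TD.D5

set_option autoImplicit false

/-! # Small index for all groups containing a generated number, at once modulo the same prime

Let `F` be the `m`-th cyclotomic field, `C = {σ_a}`, `k = (a - 1, m)`; we suppose that every prime
`l ∣ m` divides `m / k` (this means that the class `a` modulo `m` determines the exact power of `l` in
`q - 1`).  `T m a c x` is the set of the primes `q ≤ x`, `q ≡ a (mod m)`, such that all the prime factors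
of `q - 1` outside `m` exceed `x ^ c`; for some absolute `c > 0` it has `≫ x / log² x` elements.

There are absolute `κ > 0` and `K` with the following property.  Let `B` and `M` be sets of positive
integers `≤ x ^ κ`, `M` independent modulo the group generated by `B`, and `G` a set of at most `x ^ κ`
integers `g` with `log g ≤ x ^ κ`.  For every `q ∈ T m a c x`, with at most `x ^ (1 - κ)` exceptions, there
is a set `E` of at most `K` members of `M` such that `q` lies in Lenstra's set `S(F, C, W, k)` for EVERY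
group `W` of rational numbers prime to `q` which contains `g` or `-g` for at least one `g ∈ G` which is a
product of members of `B` and of members of `M` outside `E`, of the latter at least one.

Consequently, for finite `B` and every set `S` of positive integers which is independent modulo `B`
there are at most `K` members of `S` outside of which the following holds: for every finite `A ⊂ S` there
is `θ > 0` such that for arbitrarily large `x` at least `θ x / log² x` of the primes `q` in `T m a c x` lie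
in `S(F, C, W, k)` for ALL the groups `W` of numbers prime to `q` which contain `g` or `-g` for some `g`,
`log g ≤ x ^ (κ / (#A + #B + 1))`, generated by `B` and `A` with at least one member of `A`. -/

namespace Pool.Agent.Results.MP_48b1c3_nt.IndexAtOnce

open Finset Filter Classical

/-- the primes `q ≤ x`, `q ≡ a (mod m)`, such that all prime factors of `q - 1` which do not divide `m`
exceed `x ^ c` -/
noncomputable def T (m a : ℕ) (c : ℝ) (x : ℕ) : Finset ℕ :=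
  (Finset.range (x + 1)).filter (fun q : ℕ => q.Prime ∧ q ≡ a [MOD m] ∧
    ∀ l : ℕ, l.Prime → l ∣ q - 1 → l ∣ m ∨ (x : ℝ) ^ c < l)

/-- `g` is a product of members of `B` and of members of `A`, of the latter at least one -/
def Generated (B A : Finset ℕ) (g : ℕ) : Prop :=
  ∃ (b e : ℕ → ℕ), (∃ n ∈ A, e n ≠ 0) ∧ g = (∏ t ∈ B, t ^ (b t)) * ∏ n ∈ A, n ^ (e n)

/-- `M` is multiplicatively independent modulo the group generated by `B` -/
def Independent (B M : Finset ℕ) : Prop :=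
  ∀ (b e : ℕ → ℤ), (∏ t ∈ B, (t : ℚ) ^ (b t)) * ∏ n ∈ M, (n : ℚ) ^ (e n) = 1 → ∀ n ∈ M, e n = 0

/-- The set `S(F, C, W, k)` for the `m`-th cyclotomic field `F` and `C = {σ_a}`: primes
`q ≡ a mod m` at which all elements of `W` are units, such that the index of the image of `W` in
`(ℤ/q)ˣ` divides `k`. -/
def InS (m a k : ℕ) (W : Subgroup ℚˣ) (q : ℕ) : Prop :=
  q.Prime ∧ q ≡ a [MOD m] ∧ (∀ w ∈ W, padicValRat q (w : ℚ) = 0) ∧
    (Subgroup.closure {u : (ZMod q)ˣ | ∃ w ∈ W, (((w : ℚ).num : ℤ) : ZMod q) =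
      (u : ZMod q) * (((w : ℚ).den : ℕ) : ZMod q)}).index ∣ k

/-- `q` lies in `S(F, C, W, k)` for all groups `W` of numbers prime to `q` which contain `g` or `-g` -/
def AllIn (m a k q g : ℕ) : Prop :=
  ∀ W : Subgroup ℚˣ, (∀ w ∈ W, padicValRat q (w : ℚ) = 0) →
    (∃ w ∈ W, (w : ℚ) = g ∨ (w : ℚ) = -g) → InS m a k W q

lemma T_eq {m : ℕ} (h2 : 2 ∣ m) (a : ℕ) (c : ℝ) (x : ℕ) :
    T m a c x = Pool.Agent.Y892.TD.TS m a x ⌊(x : ℝ) ^ c⌋₊ := by
  ext p
  unfold T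
  rw [Pool.Agent.Y892.TD.mem_TS h2, mem_filter, mem_range]
  constructor
  · rintro ⟨h1, h2, h3, h4⟩
    refine ⟨⟨h2.pos, by omega⟩, h2, h3, fun q hq hqm hqd => ?_⟩
    rcases h4 q hq hqd with h | h
    · exact absurd h hqm
    · exact (Nat.floor_lt (by positivity)).2 h
  · rintro ⟨h1, h2, h3, h4⟩
    refine ⟨by omega, h2, h3, fun q hq hqd => ?_⟩
    by_cases hqm : q ∣ m
    · exact Or.inl hqm
    · right
      rw [← Nat.floor_lt (by positivity)]
      exact h4 q hq hqm hqd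

lemma allIn_of {m a x z k q g : ℕ} (h2 : 2 ∣ m) (hq : q ∈ Pool.Agent.Y892.TD.TS m a x z)
    (h : Pool.Agent.Y892.TD.PI k q g) : AllIn m a k q g := by
  rw [Pool.Agent.Y892.TD.mem_TS h2] at hq
  obtain ⟨-, hqp, hqa, -⟩ := hq
  have : Fact q.Prime := ⟨hqp⟩
  obtain ⟨hqg, hu⟩ := h
  intro W hW ⟨w, hw, hwg⟩
  refine ⟨hqp, hqa, hW, ?_⟩
  have hg0 : (g : ZMod q) ≠ 0 := by rwa [Ne, ZMod.natCast_eq_zero_iff]
  rcases hwg with hwg | hwg
  · set u : (ZMod q)ˣ := Units.mk0 (g : ZMod q) hg0 with hudef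
    refine dvd_trans (Subgroup.index_dvd_of_le ?_) (hu u (Or.inl rfl))
    rw [Subgroup.zpowers_le]
    apply Subgroup.subset_closure
    refine ⟨w, hw, ?_⟩
    rw [hwg, hudef, Units.val_mk0]
    simp
  · have hg1 : -(g : ZMod q) ≠ 0 := neg_ne_zero.2 hg0
    set u : (ZMod q)ˣ := Units.mk0 (-(g : ZMod q)) hg1 with hudef
    refine dvd_trans (Subgroup.index_dvd_of_le ?_) (hu u (Or.inr rfl))
    rw [Subgroup.zpowers_le]
    apply Subgroup.subset_closure
    refine ⟨w, hw, ?_⟩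
    rw [hwg, hudef, Units.val_mk0]
    simp

theorem result : ∃ c κ : ℝ, ∃ K : ℕ, 0 < c ∧ 0 < κ ∧ ∀ m a : ℕ, 1 ≤ m → 2 ∣ m → a.Coprime m →
    (∀ l : ℕ, l.Prime → l ∣ m → l ∣ m / Nat.gcd (a - 1) m) → ∃ η : ℝ, 0 < η ∧
    (∃ x₀ : ℕ, ∀ x : ℕ, x₀ ≤ x → η * ((x : ℝ) / Real.log x ^ 2) ≤ ((T m a c x).card : ℝ) ∧
      ∀ B M G : Finset ℕ, Independent B M → (∀ t ∈ B, 1 ≤ t ∧ (t : ℝ) ≤ (x : ℝ) ^ κ) →
        (∀ n ∈ M, 1 ≤ n ∧ (n : ℝ) ≤ (x : ℝ) ^ κ) →
        (G.card : ℝ) ≤ (x : ℝ) ^ κ → (∀ g ∈ G, Real.log g ≤ (x : ℝ) ^ κ) →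
        ∃ X : Finset ℕ, (X.card : ℝ) ≤ (x : ℝ) ^ (1 - κ) ∧ ∀ q ∈ T m a c x, q ∉ X →
          ∃ E ⊆ M, E.card ≤ K ∧ ∀ g ∈ G, Generated B (M \ E) g →
            AllIn m a (Nat.gcd (a - 1) m) q g) ∧
    (∀ B : Finset ℕ, (∀ t ∈ B, 2 ≤ t) → ∀ S : Set ℕ, (∀ n ∈ S, 1 ≤ n) →
      (∀ M : Finset ℕ, (M : Set ℕ) ⊆ S → Independent B M) →
      ∃ E : Finset ℕ, E.card ≤ K ∧ ∀ A : Finset ℕ, (A : Set ℕ) ⊆ S → Disjoint A E →
        ∃ θ : ℝ, 0 < θ ∧ ∀ x₁ : ℕ, ∃ x : ℕ, x₁ ≤ x ∧ θ * ((x : ℝ) / Real.log x ^ 2) ≤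
          (((T m a c x).filter (fun q => ∀ g : ℕ, Generated B A g →
            Real.log g ≤ (x : ℝ) ^ (κ / (A.card + B.card + 1)) →
            AllIn m a (Nat.gcd (a - 1) m) q g)).card : ℝ)) := by
  obtain ⟨c, κ, K, hc, -, hκ, h⟩ := Pool.Agent.Y892.TD.mainTS
  refine ⟨c, κ, K, hc, hκ, fun m a hm h2 ha hcond => ?_⟩
  obtain ⟨η, hη, h3, hinf⟩ := h m a hm h2 ha hcond
  refine ⟨η, hη, ?_, ?_⟩
  · obtain ⟨x₀, hx₀⟩ := eventually_atTop.1 h3
    refine ⟨x₀, fun x hx => ?_⟩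
    obtain ⟨h4, h5⟩ := hx₀ x hx
    rw [T_eq h2]
    refine ⟨h4, fun B M G hM hBb hMb hG hGl => ⟨_, h5 B M G hM hBb hMb hG hGl, fun q hq hqX => ?_⟩⟩
    rw [mem_filter, not_and, not_not] at hqX
    obtain ⟨E, hE, hEc, hg⟩ := hqX hq
    exact ⟨E, hE, hEc, fun g hgG hgen => allIn_of h2 hq (hg g hgG hgen)⟩
  · intro B hB S h1 hS
    obtain ⟨E, hE, h⟩ := hinf B hB S hS h1
    refine ⟨E, hE, fun A hA hd => ?_⟩
    obtain ⟨θ, hθ, h2'⟩ := h A hA hd
    refine ⟨θ, hθ, fun x₁ => ?_⟩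
    obtain ⟨x, hx, h3⟩ := Filter.frequently_atTop.1 h2' x₁
    refine ⟨x, hx, h3.trans ?_⟩
    rw [T_eq h2]
    have hsub : ((Pool.Agent.Y892.TD.TS m a x ⌊(x : ℝ) ^ c⌋₊).filter (fun p => ∀ g : ℕ,
        Pool.Agent.Y892.TD.Gen B A g →
        Real.log g ≤ (x : ℝ) ^ (κ / (((A.card + B.card : ℕ) : ℝ) + 1)) →
        Pool.Agent.Y892.TD.PI (Nat.gcd (a - 1) m) p g)) ⊆
        ((Pool.Agent.Y892.TD.TS m a x ⌊(x : ℝ) ^ c⌋₊).filter (fun q => ∀ g : ℕ, Generated B A g →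
            Real.log g ≤ (x : ℝ) ^ (κ / (A.card + B.card + 1)) →
            AllIn m a (Nat.gcd (a - 1) m) q g)) := by
      intro q hq
      rw [mem_filter] at hq ⊢
      refine ⟨hq.1, fun g hgen hlog => allIn_of h2 hq.1 (hq.2 g hgen ?_)⟩
      push_cast
      exact hlog
    exact_mod_cast card_le_card hsub

end Pool.Agent.Results.MP_48b1c3_nt.IndexAtOnce
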