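import Pool.Agent.Y855.B20

set_option autoImplicit false

namespace Pool.Agent.Results.MP_48b1c3_nt.NarrowProgressions

/-- The set `S(F, C, W, κ)` for the `m`-th cyclotomic field `F` and `C = {σ_a}`: primes
`q ≡ a mod m` at which all elements of `W` are units, such that the index of the image of `W` in
`(ℤ/q)ˣ` divides `κ`. -/
def InS (m a κ : ℕ) (W : Subgroup ℚˣ) (q : ℕ) : Prop :=
  q.Prime ∧ q ≡ a [MOD m] ∧ (∀ w ∈ W, padicValRat q (w : ℚ) = 0) ∧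
    (Subgroup.closure {u : (ZMod q)ˣ | ∃ w ∈ W, (((w : ℚ).num : ℤ) : ZMod q) =
      (u : ZMod q) * (((w : ℚ).den : ℕ) : ZMod q)}).index ∣ κ

/-- For every `k` there is `D` such that infinitely many `k`-term arithmetic progressions
`x, x + d, ..., x + (k - 1) d` with `d ≤ (log x) ^ D` consist of elements of `S`. -/
def Prog (m a κ : ℕ) (W : Subgroup ℚˣ) : Prop :=
  ∀ k : ℕ, ∃ D : ℕ, ∀ A : ℕ, ∃ x d : ℕ, A ≤ x ∧ 0 < d ∧ (d : ℝ) ≤ Real.log x ^ D ∧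
    ∀ j < k, InS m a κ W (x + j * d)

/-- the rank of `V` is at least `R` -/
def RankGE (R : ℕ) (V : Subgroup ℚˣ) : Prop :=
  ∃ b : Fin R → ℚˣ, (∀ j, b j ∈ V) ∧ ∀ e : Fin R → ℤ, ∏ j, b j ^ e j = 1 → ∀ j, e j = 0

theorem result : ∃ R : ℕ, ∀ (m a κ h : ℕ) (G : Set (Subgroup ℚˣ)), 0 < m → a.Coprime m → 0 < κ → 1 ≤ h →
    (∀ l : ℕ, l.Prime → l ∣ m → l ≠ 2 → ¬ a ≡ 1 [MOD l]) →
    (∀ W ∈ G, W.FG ∧
      ((∃ N : ℕ, ∀ q : ℕ, N < q → q.Prime → q ≡ a [MOD m] →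
          ∃ w ∈ W, ¬ IsSquare (((w : ℚ).num * (w : ℚ).den : ℤ) : ZMod q)) ∨
        (2 ^ (κ.factorization 2 + 1) ∣ m ∧ ¬ a ≡ 1 [MOD 2 ^ (κ.factorization 2 + 1)]))) →
    (∀ J : Finset (Subgroup ℚˣ), (J : Set (Subgroup ℚˣ)) ⊆ G → J.card = h → RankGE R (sSup (J : Set (Subgroup ℚˣ)))) →
    {W ∈ G | ¬ Prog m a κ W}.encard ≤ (2 * (R * (h - 1)) : ℕ) := by
  classical
  obtain ⟨R, hR2, hAP⟩ := Pool.Agent.Y855.AP_grp
  refine ⟨R, fun m a κ h G hm ham hκ hh ha1 hG hJ => ?_⟩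
  by_contra hcon
  push Not at hcon
  obtain ⟨V, hVS, hV⟩ := Set.exists_subset_encard_eq (Order.add_one_le_of_lt hcon)
  have hVfin : V.Finite := Set.finite_of_encard_eq_coe (k := 2 * (R * (h - 1)) + 1) (by rw [hV]; push_cast; rfl)
  obtain ⟨T, rfl⟩ := hVfin.exists_finset_coe
  rw [Set.encard_coe_eq_coe_finsetCard] at hV
  have hTc : T.card = 2 * (R * (h - 1)) + 1 := by exact_mod_cast hV
  have hTS : ∀ W ∈ T, W ∈ G ∧ ¬ Prog m a κ W := fun W hW => hVS hW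
  -- the failing lengths
  have hfail : ∀ W : Subgroup ℚˣ, ∃ (k : ℕ) (A : ℕ → ℕ), W ∈ T → ∀ D x d : ℕ, A D ≤ x → 0 < d →
      (d : ℝ) ≤ Real.log x ^ D → ¬ ∀ j < k, InS m a κ W (x + j * d) := by
    intro W
    by_cases hW : W ∈ T
    · have h5 := (hTS W hW).2
      unfold Prog at h5
      push Not at h5
      obtain ⟨k, h6⟩ := h5
      choose A h7 using h6
      refine ⟨k, A, fun _ D x d h8 h9 h10 h11 => ?_⟩
      obtain ⟨j, hj, h12⟩ := h7 D x d h8 h9 h10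
      exact h12 (h11 j hj)
    · exact ⟨0, fun _ => 0, fun h => absurd h hW⟩
  choose kk AA hkA using hfail
  -- the bounds for nonresidues
  have hnr : ∀ W : Subgroup ℚˣ, ∃ N : ℕ, W ∈ T → (∀ q : ℕ, N < q → q.Prime → q ≡ a [MOD m] →
      (∃ w ∈ W, ¬ IsSquare (((w : ℚ).num * (w : ℚ).den : ℤ) : ZMod q)) ∨
      ¬ 2 ^ (κ.factorization 2 + 1) ∣ q - 1) := by
    intro W
    by_cases hW : W ∈ T
    · rcases (hG W (hTS W hW).1).2 with ⟨N, hN⟩ | ⟨h1, h2⟩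
      · exact ⟨N, fun _ q hq hqp hqa => Or.inl (hN q hq hqp hqa)⟩
      · refine ⟨0, fun _ q _ hqp hqa => Or.inr fun h3 => h2 ?_⟩
        have h4 : q ≡ 1 [MOD 2 ^ (κ.factorization 2 + 1)] :=
          ((Nat.modEq_iff_dvd' hqp.one_lt.le).2 h3).symm
        exact (hqa.of_dvd h1).symm.trans h4
    · exact ⟨0, fun h => absurd h hW⟩
  choose NN hNN using hnr
  obtain ⟨k, hk⟩ : ∃ k, k = T.sup kk + 2 := ⟨_, rfl⟩
  obtain ⟨D, hD⟩ := hAP k (by omega)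
  obtain ⟨W, hW, x, d, hAx, hd0, hdD, had⟩ := hD m a h hm ham ha1 hh T (by omega)
    (fun W hW => (hG W (hTS W hW).1).1)
    (fun J hJT hJc => hJ J (fun W hW => (hTS W (hJT hW)).1) hJc)
    (T.sup (fun W => AA W D) + T.sup NN + 2)
  refine hkA W hW D x d ?_ hd0 hdD fun j hj => ?_
  · have h5 : AA W D ≤ T.sup (fun W => AA W D) := Finset.le_sup (f := fun W => AA W D) hW
    omega
  · have h5 : kk W ≤ T.sup kk := Finset.le_sup hW
    have h6 : NN W ≤ T.sup NN := Finset.le_sup hW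
    obtain ⟨hp, hpA, hpa, hWu, hodd⟩ := had j (by omega)
    refine ⟨hp, hpa, Pool.Agent.Y855.val_zero _ hp W hWu, ?_⟩
    exact Pool.Agent.Y855.index_dvd _ hp (by omega) W hWu hodd κ (hNN W hW _ (by omega) hp hpa)

end Pool.Agent.Results.MP_48b1c3_nt.NarrowProgressions
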