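import Pool.Agent.Y57.FD.Base

/-!
# The index modulo primes of all the groups generated by polynomials in integers with few changed digits

`W` is the group generated by `s` polynomials with at most `T` terms in the integers `n 0, ..., n (d - 1)`, with coefficients and
exponents up to `x ^ A`; for instance the group generated by fixed integers and by the `n l`, or by `n ^ 2 + 1` and `n ^ 5 - 2`.  If the
`n l` arise from arbitrary integers by changing a few digits, then for all but a small proportion of the choices the following holds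
simultaneously for all such groups, all `κ ≤ x ^ A` and all the sets of primes up to `x` from an arbitrary family of at most `x ^ A` sets
(for instance the sets of primes with a given Frobenius class in the short intervals): the number of primes `q` in the set
for which the index of `W` modulo `q` divides `κ` is the expected one `V`, the sum of the local proportions, with an error of at most
`(max 1 V) ^ (1 / 2) x ^ δ`.
-/

set_option autoImplicit false

namespace Pool.Agent.Results.MP_48b1c3_nt.PolynomialGroups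

open Finset

open Classical in
/-- The index `[(ℤ / qℤ)ˣ : ⟨w 0, ..., w (s - 1)⟩]` of the group generated by the classes of the integers `w i`, and `0` if one of the
`w i` is not a unit modulo `q`. -/
noncomputable def index {s : ℕ} (q : ℕ) (w : Fin s → ℤ) : ℕ :=
  if ∀ i, IsUnit ((w i : ℤ) : ZMod q) then (Subgroup.closure {u : (ZMod q)ˣ | ∃ i, (u : ZMod q) = ((w i : ℤ) : ZMod q)}).index else 0

/-- The generators: the polynomials `∑ t < T, B i t * ∏ l, n l ^ k i t l`. -/
def gens {s T d : ℕ} (B : Fin s → Fin T → ℤ) (k : Fin s → Fin T → Fin d → ℕ) (n : Fin d → ℕ) : Fin s → ℤ :=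
  fun i => ∑ t, B i t * ∏ l, (n l : ℤ) ^ k i t l

open Classical in
/-- The number of the primes `q` in the set `P` for which the generators are units modulo `q` and the index of the group `W`
generated by them divides `κ`. -/
noncomputable def count {s T d : ℕ} (P : Finset ℕ) (B : Fin s → Fin T → ℤ) (k : Fin s → Fin T → Fin d → ℕ) (κ : ℕ) (n : Fin d → ℕ) : ℕ :=
  (P.filter (fun q => index q (gens B k n) ∣ κ)).card

open Classical in
/-- The expected number: the sum over the primes `q ∈ P` of the proportion of the vectors `u` of residues modulo `q` for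
which the group generated by the polynomials at `u` has an index dividing `κ`. -/
noncomputable def expected {s T d : ℕ} (P : Finset ℕ) (B : Fin s → Fin T → ℤ) (k : Fin s → Fin T → Fin d → ℕ) (κ : ℕ) : ℝ :=
  ∑ q ∈ P, (((Fintype.piFinset (fun _ : Fin d => range q)).filter (fun u => index q (gens B k u) ∣ κ)).card : ℝ) / (q : ℝ) ^ d

/-- For all groups generated by `s` polynomials with at most `T` terms, with coefficients and exponents up to `x ^ A`, all `κ ≤ x ^ A` and all
sets `P ∈ F` of primes the count is the expected number up to its square root times `x ^ δ`. -/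
def Good {d : ℕ} (s T A : ℕ) (δ : ℝ) (F : Finset (Finset ℕ)) (x : ℕ) (n : Fin d → ℕ) : Prop :=
  ∀ P ∈ F, ∀ (B : Fin s → Fin T → ℤ) (k : Fin s → Fin T → Fin d → ℕ) (κ : ℕ), (∀ i t, |B i t| ≤ (x : ℤ) ^ A) →
    (∀ i t l, k i t l ≤ x ^ A) → 1 ≤ κ → κ ≤ x ^ A →
    |(count P B k κ n : ℝ) - expected P B k κ| ≤ Real.sqrt (max 1 (expected P B k κ)) * (x : ℝ) ^ δ

/-- The digit number `i` (counted from the right, beginning with `0`) of `n` in base `b`. -/
def digit (b i n : ℕ) : ℕ := n / b ^ i % b

/-- The number which arises from the number `N` with at most `K` digits in base `b`, if for every `i ∈ S`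
the digit number `i` is replaced by `f i`. -/
def change (b K N : ℕ) (f : ℕ → ℕ) (S : Finset ℕ) : ℕ :=
  ∑ i ∈ range K, (if i ∈ S then f i else digit b i N) * b ^ i

open Classical in
/-- The number of the choices of `r l` of `K l` positions for all `l < d` for which the vector of the numbers obtained by
changing the digits of the `N l` at the chosen positions (according to `f l`) does not have the property `E`. -/
noncomputable def exceptions {d : ℕ} (b : ℕ) (K r N : Fin d → ℕ) (f : Fin d → ℕ → ℕ) (E : (Fin d → ℕ) → Prop) : ℕ :=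
  ((Fintype.piFinset (fun l => powersetCard (r l) (range (K l)))).filter
    (fun S => ¬ E (fun l => change b (K l) (N l) (f l) (S l)))).card

lemma exc_eq {d : ℕ} (b : ℕ) (K r N : Fin d → ℕ) (f : Fin d → ℕ → ℕ) (E : (Fin d → ℕ) → Prop) :
    exceptions b K r N f E = Pool.Agent.Y57.FD.exceptions b K r N f E := rfl

lemma index_congr {s : ℕ} {q : ℕ} {w w' : Fin s → ℤ} (h : ∀ i, ((w i : ℤ) : ZMod q) = ((w' i : ℤ) : ZMod q)) :
    index q w = index q w' := by
  have h1 : (∀ i, IsUnit ((w i : ℤ) : ZMod q)) ↔ ∀ i, IsUnit ((w' i : ℤ) : ZMod q) := forall_congr' fun i => by rw [h i]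
  have h2 : {u : (ZMod q)ˣ | ∃ i, (u : ZMod q) = ((w i : ℤ) : ZMod q)} = {u : (ZMod q)ˣ | ∃ i, (u : ZMod q) = ((w' i : ℤ) : ZMod q)} := by
    ext u
    exact exists_congr fun i => by rw [h i]
  unfold index
  by_cases h3 : ∀ i, IsUnit ((w i : ℤ) : ZMod q)
  · rw [if_pos h3, if_pos (h1.1 h3), h2]
  · rw [if_neg h3, if_neg (fun h4 => h3 (h1.2 h4))]

lemma gens_mod {s T d : ℕ} (q : ℕ) (B : Fin s → Fin T → ℤ) (k : Fin s → Fin T → Fin d → ℕ) (n : Fin d → ℕ) (i : Fin s) :
    ((gens B k n i : ℤ) : ZMod q) = ((gens B k (fun l => n l % q) i : ℤ) : ZMod q) := by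
  unfold gens
  push_cast
  rfl

/-- Let a base `b ≥ 2`, the number `d ≥ 1` of the integers which vary, the number `s` of the generators, the number `T` of the terms,
`δ > 0` and an integer `A ≥ 0` be given.  There are `c > 0` and `y₀` such that for all integers `r l`, `K l`, `y` with `2 r l ≤ K l` and `y ≥ y₀` the
following holds.

Let `0 ≤ N l < b ^ K l` be arbitrary integers, prescribe for every position `j` a digit `f l j` different from the digit of
`N l` in base `b`, and let `F x` be for every `x` a family of at most `x ^ A` arbitrary sets of primes up to `x`.  If one chooses `r l` of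
the `K l` positions and replaces the digits of `N l` at these positions, then for all but at most a proportion `1 / y ^ A` of
the choices the vector `n` obtained has the following property for all integers `x` with `y ≤ x ≤ exp (c r l)` for all `l`: for all
`P ∈ F x`, all groups `W` generated by `s` polynomials `∑ t < T, B i t * ∏ l, n l ^ k i t l`, `|B i t| ≤ x ^ A`, `k i t l ≤ x ^ A`, and
all `1 ≤ κ ≤ x ^ A` the number of the primes `q ∈ P` such that the generators are units modulo `q` and the index of `W` modulo `q`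
divides `κ` differs from its expected value `V` by at most `(max 1 V) ^ (1 / 2) x ^ δ`. -/
theorem result (b d s T : ℕ) (hb : 2 ≤ b) (hd : 1 ≤ d) (δ : ℝ) (hδ : 0 < δ) (A : ℕ) : ∃ c : ℝ, 0 < c ∧ ∃ y₀ : ℕ,
    ∀ (K r : Fin d → ℕ) (y : ℕ), (∀ l, 2 * r l ≤ K l) → y₀ ≤ y →
    ∀ N : Fin d → ℕ, (∀ l, N l < b ^ K l) → ∀ f : Fin d → ℕ → ℕ, (∀ l j, f l j < b ∧ f l j ≠ digit b j (N l)) →
    ∀ F : ℕ → Finset (Finset ℕ), (∀ x, (F x).card ≤ x ^ A) → (∀ x, ∀ P ∈ F x, ∀ q ∈ P, q.Prime ∧ q ≤ x) →
      (exceptions b K r N f (fun n => ∀ x : ℕ, y ≤ x → (∀ l, (x : ℝ) ≤ Real.exp (c * r l)) → Good s T A δ (F x) x n) : ℝ) ≤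
        1 / (y : ℝ) ^ A * ∏ l, ((K l).choose (r l) : ℝ) := by
  classical
  obtain ⟨c, hc, y₀, h⟩ := Pool.Agent.Y57.FD.law b d hb hd δ hδ A (A + ((A + 2) * (T * s) + ((A + 1) * (d * (T * s)) + A)))
  refine ⟨c, hc, y₀ + 2, fun K r y hrK hy N hN f hf F hF hFP => ?_⟩
  rw [exc_eq]
  refine h K r y hrK (by omega) N hN f hf (Finset ℕ × (Fin s → Fin T → ℤ) × (Fin s → Fin T → Fin d → ℕ) × ℕ)
    (fun x => (F x) ×ˢ ((Fintype.piFinset (fun _ : Fin s => Fintype.piFinset (fun _ : Fin T => Icc (-((x : ℤ) ^ A)) ((x : ℤ) ^ A)))) ×ˢ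
      ((Fintype.piFinset (fun _ : Fin s => Fintype.piFinset (fun _ : Fin T => Fintype.piFinset (fun _ : Fin d => range (x ^ A + 1))))) ×ˢ Icc 1 (x ^ A)))) ?_
    (fun x l => if l.1 ∈ F x then l.1 else ∅) ?_ (fun l q n => index q (gens l.2.1 l.2.2.1 n) ∣ l.2.2.2) ?_ _ ?_
  · intro x hx
    rw [card_product, card_product, card_product, Fintype.card_piFinset_const, Fintype.card_piFinset_const,
      Fintype.card_piFinset_const, Fintype.card_piFinset_const, Fintype.card_piFinset_const, Int.card_Icc, Nat.card_Icc, card_range]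
    simp only [Nat.add_sub_cancel]
    have hxA : 1 ≤ x ^ A := Nat.one_le_pow _ _ (by omega)
    have e1 : ((x : ℤ) ^ A + 1 - -((x : ℤ) ^ A)).toNat = 2 * x ^ A + 1 := by
      have : ((x : ℤ) ^ A + 1 - -((x : ℤ) ^ A)) = ((2 * x ^ A + 1 : ℕ) : ℤ) := by
        push_cast
        ring
      rw [this, Int.toNat_natCast]
    rw [e1]
    have e2 : 2 * x ^ A + 1 ≤ x ^ (A + 2) := by
      have : x ^ A * 4 ≤ x ^ A * (x * x) := Nat.mul_le_mul_left _ (by nlinarith)
      calc 2 * x ^ A + 1 ≤ x ^ A * 4 := by omega
        _ ≤ x ^ A * (x * x) := this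
        _ = x ^ (A + 2) := by ring
    have e3 : x ^ A + 1 ≤ x ^ (A + 1) := by
      have : x ^ A * 2 ≤ x ^ A * x := Nat.mul_le_mul_left _ hx
      calc x ^ A + 1 ≤ x ^ A * 2 := by omega
        _ ≤ x ^ A * x := this
        _ = x ^ (A + 1) := by ring
    rw [pow_add, pow_add, pow_add]
    refine Nat.mul_le_mul (hF x) (Nat.mul_le_mul ?_ (Nat.mul_le_mul ?_ le_rfl))
    · calc ((2 * x ^ A + 1) ^ T) ^ s ≤ ((x ^ (A + 2)) ^ T) ^ s := Nat.pow_le_pow_left (Nat.pow_le_pow_left e2 _) _
        _ = x ^ ((A + 2) * (T * s)) := by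
          rw [← pow_mul, ← pow_mul]
    · calc (((x ^ A + 1) ^ d) ^ T) ^ s ≤ (((x ^ (A + 1)) ^ d) ^ T) ^ s :=
            Nat.pow_le_pow_left (Nat.pow_le_pow_left (Nat.pow_le_pow_left e3 _) _) _
        _ = x ^ ((A + 1) * (d * (T * s))) := by
          rw [← pow_mul, ← pow_mul, ← pow_mul]
  · intro x l p hp
    by_cases hl : l.1 ∈ F x
    · rw [if_pos hl] at hp
      exact hFP x l.1 hl p hp
    · rw [if_neg hl] at hp
      exact absurd hp (notMem_empty p)
  · intro l q _ n
    rw [index_congr (gens_mod q l.2.1 l.2.2.1 n)]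
  · intro n hn x hyx hxr P hP B k κ hB hk hκ1 hκ2
    have h1 := hn x (by omega) hyx hxr (P, B, k, κ) (by
      rw [mem_product, mem_product, mem_product]
      refine ⟨hP, ?_, ?_, ?_⟩
      · rw [Fintype.mem_piFinset]
        intro i
        rw [Fintype.mem_piFinset]
        intro t
        rw [mem_Icc]
        exact abs_le.1 (hB i t)
      · rw [Fintype.mem_piFinset]
        intro i
        rw [Fintype.mem_piFinset]
        intro t
        rw [Fintype.mem_piFinset]
        intro l
        rw [mem_range]
        exact Nat.lt_succ_of_le (hk i t l)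
      · rw [mem_Icc]
        exact ⟨hκ1, hκ2⟩)
    simp only [if_pos hP] at h1
    have e1 : expected P B k κ = ∑ q ∈ P, Pool.Agent.TH894.NE.Pr d q (fun n => index q (gens B k n) ∣ κ) := by
      unfold expected Pool.Agent.TH894.NE.Pr Pool.Agent.TH894.NE.box
      apply sum_congr rfl
      intro p _
      congr
    rw [e1]
    unfold count
    convert h1

end Pool.Agent.Results.MP_48b1c3_nt.PolynomialGroups
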